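import Mathlib

/-!
# W1: geometric grids of ratio 2 with a shift
-/

set_option autoImplicit false

open Finset Filter

namespace Pool.Agent.Helper2.WM

/-- The largest element of the grid `2 ^ (n + s / J)`, `n` an integer, which is at most `w`. -/
noncomputable def gbot (J s : ℕ) (w : ℝ) : ℝ :=
  (2 : ℝ) ^ ((⌊Real.logb 2 w - (s : ℝ) / J⌋ : ℝ) + (s : ℝ) / J)

/-- The average of the grid bottoms is at least `kap J * w`. -/
noncomputable def kap (J : ℕ) : ℝ := (1 / (J : ℝ)) * ∑ s ∈ range J, (2 : ℝ) ^ (-(((s : ℝ) + 1) / J))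

theorem gbot_pos (J s : ℕ) (w : ℝ) : 0 < gbot J s w := Real.rpow_pos_of_pos two_pos _

theorem gbot_le {J s : ℕ} {w : ℝ} (hw : 0 < w) : gbot J s w ≤ w := by
  have h1 : (2 : ℝ) ^ Real.logb 2 w = w := Real.rpow_logb two_pos (by norm_num) hw
  calc gbot J s w ≤ (2 : ℝ) ^ Real.logb 2 w := by
        unfold gbot
        refine Real.rpow_le_rpow_of_exponent_le (by norm_num) ?_
        have := Int.floor_le (Real.logb 2 w - (s : ℝ) / J)
        linarith
    _ = w := h1

theorem lt_two_gbot {J s : ℕ} {w : ℝ} (hw : 0 < w) : w < 2 * gbot J s w := by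
  have h1 : (2 : ℝ) ^ Real.logb 2 w = w := Real.rpow_logb two_pos (by norm_num) hw
  calc w = (2 : ℝ) ^ Real.logb 2 w := h1.symm
    _ < (2 : ℝ) ^ (1 + ((⌊Real.logb 2 w - (s : ℝ) / J⌋ : ℝ) + (s : ℝ) / J)) := by
        refine Real.rpow_lt_rpow_of_exponent_lt (by norm_num) ?_
        have := Int.lt_floor_add_one (Real.logb 2 w - (s : ℝ) / J)
        linarith
    _ = 2 * gbot J s w := by
        rw [Real.rpow_add two_pos, Real.rpow_one]
        rfl

/-- Two different grid bottoms differ by a factor at least 2. -/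
theorem gbot_gap {J s : ℕ} {w w' : ℝ} (h : gbot J s w < gbot J s w') :
    2 * gbot J s w ≤ gbot J s w' := by
  unfold gbot at h ⊢
  rw [Real.rpow_lt_rpow_left_iff (by norm_num)] at h
  have h1 : ⌊Real.logb 2 w - (s : ℝ) / J⌋ < ⌊Real.logb 2 w' - (s : ℝ) / J⌋ := by
    have : (⌊Real.logb 2 w - (s : ℝ) / J⌋ : ℝ) < (⌊Real.logb 2 w' - (s : ℝ) / J⌋ : ℝ) := by linarith
    exact_mod_cast this
  have h2 : (⌊Real.logb 2 w - (s : ℝ) / J⌋ : ℝ) + 1 ≤ (⌊Real.logb 2 w' - (s : ℝ) / J⌋ : ℝ) := by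
    exact_mod_cast h1
  calc 2 * (2 : ℝ) ^ ((⌊Real.logb 2 w - (s : ℝ) / J⌋ : ℝ) + (s : ℝ) / J) =
      (2 : ℝ) ^ (1 + ((⌊Real.logb 2 w - (s : ℝ) / J⌋ : ℝ) + (s : ℝ) / J)) := by
        rw [Real.rpow_add two_pos 1, Real.rpow_one]
    _ ≤ _ := Real.rpow_le_rpow_of_exponent_le (by norm_num) (by linarith)

theorem sum_gbot {J : ℕ} (hJ : 0 < J) {w : ℝ} (hw : 0 < w) :
    kap J * w ≤ (1 / (J : ℝ)) * ∑ s ∈ range J, gbot J s w := by
  have hJR : (0 : ℝ) < J := by exact_mod_cast hJ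
  have hJZ : (0 : ℤ) < J := by exact_mod_cast hJ
  set t : ℝ := Real.logb 2 w with ht
  have h1 : (2 : ℝ) ^ t = w := Real.rpow_logb two_pos (by norm_num) hw
  set n : ℤ := ⌊(J : ℝ) * t⌋ with hn
  have hn1 : (n : ℝ) ≤ J * t := Int.floor_le _
  have hn2 : (J : ℝ) * t < n + 1 := Int.lt_floor_add_one _
  set f : ℕ → ℕ := fun s => ((n - s) % J).toNat with hf
  have hfZ : ∀ s : ℕ, ((f s : ℕ) : ℤ) = (n - s) % J := fun s =>
    Int.toNat_of_nonneg (Int.emod_nonneg _ hJZ.ne')
  have hfl : ∀ s : ℕ, f s < J := fun s => by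
    have h2 := Int.emod_lt_of_pos (n - s) hJZ
    rw [← hfZ s] at h2
    exact_mod_cast h2
  have hinj : Set.InjOn f (range J : Finset ℕ) := by
    intro s hs s' hs' e
    rw [coe_range, Set.mem_Iio] at hs hs'
    have e1 : (n - s) % (J : ℤ) = (n - s') % J := by rw [← hfZ s, ← hfZ s', e]
    have e2 : (J : ℤ) ∣ ((s' : ℤ) - s) := by
      have := Int.emod_emod_of_dvd (n - s) (dvd_refl (J : ℤ))
      have e3 := (Int.emod_emod_of_dvd (n - s) (dvd_refl (J : ℤ)))
      have e4 := Int.ModEq.dvd (show (n - s : ℤ) ≡ n - s' [ZMOD J] from e1)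
      have e5 : (n - s' : ℤ) - (n - s) = -((s' : ℤ) - s) := by ring
      rw [e5, dvd_neg] at e4
      exact e4
    obtain ⟨c, hc⟩ := e2
    have hs1 : (s : ℤ) < J := by exact_mod_cast hs
    have hs2 : (s' : ℤ) < J := by exact_mod_cast hs'
    have hc0 : c = 0 := by
      rcases lt_trichotomy c 0 with h | h | h
      · exfalso
        nlinarith
      · exact h
      · exfalso
        nlinarith
    rw [hc0, mul_zero] at hc
    have : (s' : ℤ) = s := by linarith
    exact_mod_cast this.symm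
  have himg : (range J).image f = range J := by
    refine eq_of_subset_of_card_le ?_ ?_
    · intro x hx
      rw [mem_image] at hx
      obtain ⟨s, -, rfl⟩ := hx
      exact mem_range.2 (hfl s)
    · rw [card_image_of_injOn hinj]
  have h3 : ∀ s ∈ range J, (2 : ℝ) ^ (-(((f s : ℝ) + 1) / J)) * w ≤ gbot J s w := by
    intro s _
    have hdiv : (n - s : ℤ) = J * ((n - s) / J) + (n - s) % J := (Int.mul_ediv_add_emod _ _).symm
    set q : ℤ := (n - s) / J with hq
    have hdR : (n : ℝ) - s = J * q + f s := by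
      have : ((n - s : ℤ) : ℝ) = ((J * q + (f s : ℕ) : ℤ) : ℝ) := by
        rw [hfZ s]
        exact_mod_cast hdiv
      push_cast at this
      exact this
    have hge : (q : ℤ) ≤ ⌊t - (s : ℝ) / J⌋ := by
      rw [Int.le_floor]
      rw [le_sub_iff_add_le, ← sub_nonneg]
      have h5 : (0 : ℝ) ≤ (f s : ℝ) := Nat.cast_nonneg _
      have h6 : 0 ≤ (J : ℝ) * (t - ((q : ℝ) + (s : ℝ) / J)) := by
        have h7 : (J : ℝ) * (t - ((q : ℝ) + (s : ℝ) / J)) = J * t - J * q - s := by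
          field_simp
          ring
        rw [h7]
        linarith
      exact (mul_nonneg_iff_of_pos_left hJR).1 h6
    have hgeR : (q : ℝ) ≤ (⌊t - (s : ℝ) / J⌋ : ℝ) := by exact_mod_cast hge
    calc (2 : ℝ) ^ (-(((f s : ℝ) + 1) / J)) * w = (2 : ℝ) ^ (-(((f s : ℝ) + 1) / J) + t) := by
          rw [Real.rpow_add two_pos, h1]
      _ ≤ (2 : ℝ) ^ ((⌊t - (s : ℝ) / J⌋ : ℝ) + (s : ℝ) / J) := by
          refine Real.rpow_le_rpow_of_exponent_le (by norm_num) ?_
          have h8 : -(((f s : ℝ) + 1) / J) + t ≤ (q : ℝ) + (s : ℝ) / J := by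
            rw [← sub_nonneg]
            have h9 : 0 ≤ (J : ℝ) * ((q : ℝ) + (s : ℝ) / J - (-(((f s : ℝ) + 1) / J) + t)) := by
              have h10 : (J : ℝ) * ((q : ℝ) + (s : ℝ) / J - (-(((f s : ℝ) + 1) / J) + t)) =
                  J * q + s + f s + 1 - J * t := by
                field_simp
                ring
              rw [h10]
              linarith
            exact (mul_nonneg_iff_of_pos_left hJR).1 h9
          linarith
      _ = gbot J s w := rfl
  have h4 : ∑ s ∈ range J, (2 : ℝ) ^ (-(((f s : ℝ) + 1) / J)) =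
      ∑ s ∈ range J, (2 : ℝ) ^ (-(((s : ℝ) + 1) / J)) := by
    conv_rhs => rw [← himg]
    rw [sum_image hinj]
  unfold kap
  rw [mul_assoc]
  refine mul_le_mul_of_nonneg_left ?_ (by positivity)
  rw [← h4, sum_mul]
  exact sum_le_sum h3

theorem kap_eq {J : ℕ} (hJ : 0 < J) : kap J = 1 / (2 * (J * ((2 : ℝ) ^ (1 / (J : ℝ)) - 1))) := by
  have hJR : (0 : ℝ) < J := by exact_mod_cast hJ
  set r : ℝ := (2 : ℝ) ^ (1 / (J : ℝ)) with hr
  have hr1 : 1 < r := Real.one_lt_rpow (by norm_num) (by positivity)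
  have hrJ : r ^ J = 2 := by
    rw [hr, ← Real.rpow_natCast, ← Real.rpow_mul (by norm_num), one_div_mul_cancel hJR.ne',
      Real.rpow_one]
  have h1 : ∀ s ∈ range J, (2 : ℝ) ^ (-(((s : ℝ) + 1) / J)) = r⁻¹ * (r⁻¹) ^ s := by
    intro s _
    rw [← pow_succ', inv_pow, ← Real.rpow_natCast r (s + 1), hr, ← Real.rpow_mul (by norm_num),
      ← Real.rpow_neg (by norm_num)]
    congr 1
    push_cast
    field_simp
  unfold kap
  have hr0 : 0 < r := by linarith
  have hne : r⁻¹ ≠ 1 := by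
    intro h
    rw [inv_eq_one] at h
    linarith
  rw [sum_congr rfl h1, ← mul_sum, geom_sum_eq hne, inv_pow, hrJ]
  have h2 : r - 1 ≠ 0 := by linarith
  have h3 : r⁻¹ - 1 ≠ 0 := sub_ne_zero.2 hne
  have h4 : r⁻¹ - 1 = -(r - 1) / r := by
    field_simp
    ring
  rw [h4]
  field_simp
  ring

theorem kap_tendsto : Tendsto kap atTop (nhds (1 / (2 * Real.log 2))) := by
  have h1 : Tendsto (fun J : ℕ => (J : ℝ) * ((2 : ℝ) ^ (1 / (J : ℝ)) - 1)) atTop
      (nhds (Real.log 2)) := by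
    have h2 : HasDerivAt (fun x : ℝ => (2 : ℝ) ^ x) (Real.log 2) 0 := by
      have := (hasDerivAt_id (0 : ℝ)).const_rpow (a := 2) (by norm_num : (0 : ℝ) < 2)
      simpa using this
    have h3 := (hasDerivAt_iff_tendsto_slope.1 h2)
    have h4 : Tendsto (fun J : ℕ => (1 / (J : ℝ))) atTop (nhdsWithin 0 {0}ᶜ) := by
      refine tendsto_nhdsWithin_iff.2 ⟨tendsto_one_div_atTop_nhds_zero_nat, ?_⟩
      filter_upwards [eventually_gt_atTop 0] with J hJ
      have : (0 : ℝ) < J := by exact_mod_cast hJ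
      simp only [Set.mem_compl_iff, Set.mem_singleton_iff]
      positivity
    refine (h3.comp h4).congr' ?_
    filter_upwards [eventually_gt_atTop 0] with J hJ
    have hJR : (0 : ℝ) < J := by exact_mod_cast hJ
    simp only [Function.comp, slope, sub_zero, vsub_eq_sub, smul_eq_mul, Real.rpow_zero, one_div,
      inv_inv]
  have h5 : Tendsto (fun J : ℕ => 1 / (2 * ((J : ℝ) * ((2 : ℝ) ^ (1 / (J : ℝ)) - 1)))) atTop
      (nhds (1 / (2 * Real.log 2))) := by
    refine Tendsto.div tendsto_const_nhds (h1.const_mul 2) ?_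
    have := Real.log_pos (by norm_num : (1 : ℝ) < 2)
    positivity
  refine h5.congr' ?_
  filter_upwards [eventually_gt_atTop 0] with J hJ
  exact (kap_eq hJ).symm

end Pool.Agent.Helper2.WM
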